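import Pool.Agent.N225.ST.F

/-!
# Stadia of radius `R < (1 + √6 - √2) r` whose minimizers are not horseshoes

`seg a`: the segment `I` of length `2 a`; `stadium a R`: the points at distance exactly `R` from `I`, that is the boundary of
the closed `R`-neighbourhood of `I` (first statement); `IsShoe a (R - r) S`: `S` is the union of a connected subset of the
inner parallel curve `M_r` (the `(R - r)`-stadium) and of two segments, so every horseshoe is of this kind.

For every `r > 0` and `r < R < (1 + √6 - √2) r = 2.035… r`, for all sufficiently long segments `I` there is a connected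
compact set `K` whose closed `r`-neighbourhood contains the `R`-stadium and which is strictly shorter than every such set of
horseshoe type; so no `r`-minimizer of the `R`-stadium is a horseshoe, and `C* ≥ 1 + √6 - √2`.

The set `K` is a comb: one long side of `M_r` is kept (nearly), the other is cut into long bars with gaps of length `2 r`, whose
ends are bent to the stadium, and every bar is connected with the kept side by a tooth which ends in Steiner points.  Every gap
saves `2 r`, and every tooth costs `2 (R - r) - 2 (√6 - √2 - 1) r` if the bars are long.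
-/

set_option autoImplicit false

open Metric Set MeasureTheory Filter
open scoped ENNReal NNReal Topology Pointwise

namespace Pool.Agent.Results.MP_4b56aa_gt.LongStadia

open Pool.Agent.N225.MD Pool.Agent.N225.ST

/-- **Long stadia of radius less than `(1 + √6 - √2) r` do not have horseshoes as minimizers.** -/
theorem result :
    (∀ a R : ℝ, 0 ≤ a → 0 < R → stadium a R = frontier (cthickening R (seg a))) ∧
    2.035 < 1 + √6 - √2 ∧
    ∀ r R : ℝ, 0 < r → r < R → R < (1 + √6 - √2) * r →
      ∃ a0 : ℝ, 0 < a0 ∧ ∀ a : ℝ, a0 ≤ a →
        (∃ K : Set (E 2), Covers (stadium a R) r K ∧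
          ∀ S : Set (E 2), IsShoe a (R - r) S → Covers (stadium a R) r S → μH[1] K < μH[1] S) ∧
        ∀ S : Set (E 2), IsMin (stadium a R) r S → ¬ IsShoe a (R - r) S := by
  refine ⟨fun a R ha hR => stadium_eq ha hR, ?_, fun r R hr hrR hR => ?_⟩
  · have h6 : (2.44948 : ℝ) < √6 := by
      rw [Real.lt_sqrt (by norm_num)]
      norm_num
    have h2 : √2 < (1.41422 : ℝ) := by
      rw [Real.sqrt_lt' (by norm_num)]
      norm_num
    linarith
  · obtain ⟨a0, ha0, h⟩ := main hr hrR hR
    refine ⟨a0, ha0, fun a ha => ⟨h a ha, fun S hS hS' => ?_⟩⟩
    obtain ⟨K, hK, hK'⟩ := h a ha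
    exact absurd (hS.le K hK) (not_le.2 (hK' S hS' hS.covers))

end Pool.Agent.Results.MP_4b56aa_gt.LongStadia
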